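import Mathlib
import Pool.Agent.H42.Rcof1

open Pool.Agent.H42.RcofDefs

/-- A maximal ideal of cofinality continuum with a subideal of relative cofinality `ℵ₁`. -/
theorem Pool.Agent.Results.MP_f21612_lc.Yes.result :
    ∃ I J : Set (Set ℕ), Maximal IsIdeal I ∧ cof I = Cardinal.continuum ∧ IsIdeal J ∧ J ⊆ I ∧
      cofRel J I = Cardinal.aleph 1 :=
  Pool.Agent.H42.Rcof1.main
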